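import Pool.Agent.H211.CH.Stm

/-!
Task ROOTS (project CH, helper211): the conjugates of `th` (helper249).
-/

set_option autoImplicit false

open Polynomial

namespace Pool.Agent.H249.CH211

open Pool.Agent.H211.CH

universe u

variable {K : Type u} [Field K]

/-- `s = c x ^ n + ...` -/
def HO (s : LaurentSeries K) (n : ℤ) (c : K) : Prop :=
  (∀ k : ℤ, k < n → s.coeff k = 0) ∧ s.coeff n = c

namespace HO

theorem lt {s : LaurentSeries K} {n m : ℤ} {c : K} (h : HO s n c) (hm : m < n) : HO s m 0 :=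
  ⟨fun k hk => h.1 k (hk.trans hm), h.1 m hm⟩

theorem zero (n : ℤ) : HO (0 : LaurentSeries K) n 0 := ⟨fun _ _ => rfl, rfl⟩

theorem add {s t : LaurentSeries K} {n : ℤ} {c d : K} (h : HO s n c) (h' : HO t n d) :
    HO (s + t) n (c + d) :=
  ⟨fun k hk => by rw [HahnSeries.coeff_add, h.1 k hk, h'.1 k hk, add_zero],
    by rw [HahnSeries.coeff_add, h.2, h'.2]⟩

theorem sum {ι : Type} (I : Finset ι) (s : ι → LaurentSeries K) (n : ℤ) (c : ι → K)
    (h : ∀ i ∈ I, HO (s i) n (c i)) : HO (∑ i ∈ I, s i) n (∑ i ∈ I, c i) := by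
  classical
  induction I using Finset.induction_on with
  | empty => exact zero n
  | insert a I ha ih =>
    rw [Finset.sum_insert ha, Finset.sum_insert ha]
    exact add (h a (Finset.mem_insert_self a I)) (ih fun i hi => h i (Finset.mem_insert_of_mem hi))

theorem mul {s t : LaurentSeries K} {n m : ℤ} {c d : K} (h : HO s n c) (h' : HO t m d) :
    HO (s * t) (n + m) (c * d) := by
  refine ⟨fun k hk => ?_, ?_⟩
  · rw [HahnSeries.coeff_mul]
    refine Finset.sum_eq_zero fun ij hij => ?_
    have h1 := (Finset.mem_antidiagonal.1 hij).2.2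
    rcases lt_or_ge ij.1 n with h2 | h2
    · rw [h.1 _ h2, zero_mul]
    · rw [h'.1 _ (by omega), mul_zero]
  · rw [HahnSeries.coeff_mul, Finset.sum_eq_single (n, m)]
    · rw [h.2, h'.2]
    · intro ij hij hne
      have h1 := (Finset.mem_antidiagonal.1 hij).2.2
      rcases lt_trichotomy ij.1 n with h2 | h2 | h2
      · rw [h.1 _ h2, zero_mul]
      · exact absurd (Prod.ext h2 (by show ij.2 = m; omega)) hne
      · rw [h'.1 _ (by omega), mul_zero]
    · intro hnm
      rw [Finset.mem_antidiagonal] at hnm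
      by_contra hne
      apply hnm
      refine ⟨?_, ?_, rfl⟩
      · intro h1
        exact hne (by show s.coeff n * t.coeff m = 0; rw [h1, zero_mul])
      · intro h1
        exact hne (by show s.coeff n * t.coeff m = 0; rw [h1, mul_zero])

theorem const (a : K) : HO (algebraMap K (LaurentSeries K) a) 0 a := by
  have e : algebraMap K (LaurentSeries K) a = HahnSeries.C a := by
    rw [HahnSeries.algebraMap_apply', PowerSeries.algebraMap_eq, HahnSeries.ofPowerSeries_C]
  rw [e]
  refine ⟨fun k hk => ?_, ?_⟩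
  · rw [HahnSeries.C_apply, HahnSeries.coeff_single_of_ne hk.ne]
  · rw [HahnSeries.C_apply, HahnSeries.coeff_single_same]

theorem smul {s : LaurentSeries K} {n : ℤ} {c : K} (h : HO s n c) (a : K) :
    HO (algebraMap K (LaurentSeries K) a * s) n (a * c) := by
  have h1 := (const a).mul h
  rwa [zero_add] at h1

theorem pow {s : LaurentSeries K} {n : ℤ} {c : K} (h : HO s n c) (j : ℕ) :
    HO (s ^ j) (j * n) (c ^ j) := by
  induction j with
  | zero =>
    rw [pow_zero, pow_zero, Nat.cast_zero, zero_mul]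
    refine ⟨fun k hk => ?_, ?_⟩
    · rw [HahnSeries.coeff_one, if_neg hk.ne]
    · rw [HahnSeries.coeff_one, if_pos rfl]
  | succ j ih =>
    have h1 := mul ih h
    have e : ((j + 1 : ℕ) : ℤ) * n = j * n + n := by push_cast; ring
    rw [e, pow_succ, pow_succ]
    exact h1

theorem unique {s : LaurentSeries K} {n : ℤ} {c d : K} (h : HO s n c) (h' : HO s n d) : c = d :=
  h.2.symm.trans h'.2

end HO

/-- order and leading coefficient of `p (th)` -/
theorem HO_aeval {th : LaurentSeries K} (h : HO th (-1) 1) (p : K[X]) :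
    HO (aeval th p) (-(p.natDegree : ℤ)) p.leadingCoeff := by
  rw [aeval_eq_sum_range, Finset.sum_range_succ]
  simp only [Algebra.smul_def]
  have hj : ∀ j : ℕ, HO (algebraMap K (LaurentSeries K) (p.coeff j) * th ^ j) (-(j : ℤ))
      (p.coeff j) := by
    intro j
    have h1 := (h.pow j).smul (p.coeff j)
    rw [one_pow, mul_one, mul_neg, mul_one] at h1
    exact h1
  have h1 : HO (∑ j ∈ Finset.range p.natDegree,
      algebraMap K (LaurentSeries K) (p.coeff j) * th ^ j) (-(p.natDegree : ℤ))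
      (∑ _j ∈ Finset.range p.natDegree, (0 : K)) := by
    refine HO.sum _ _ _ _ fun j hj' => ?_
    refine (hj j).lt ?_
    have := Finset.mem_range.1 hj'
    omega
  rw [Finset.sum_const_zero] at h1
  have h2 := h1.add (hj p.natDegree)
  rw [zero_add] at h2
  exact h2

/-- `(β ^ k - β' ^ k) / (β - β')` -/
theorem HO_geom {β β' : LaurentSeries K} {b : ℤ} (h : HO β (-b) 1) (h' : HO β' (-b) 1) (k : ℕ) :
    HO (∑ i ∈ Finset.range (k + 1), β ^ i * β' ^ (k + 1 - 1 - i)) (k * (-b)) ((k + 1 : ℕ) : K) := by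
  have h1 : HO (∑ i ∈ Finset.range (k + 1), β ^ i * β' ^ (k + 1 - 1 - i)) (k * (-b))
      (∑ _i ∈ Finset.range (k + 1), (1 : K)) := by
    refine HO.sum _ _ _ _ fun i hi => ?_
    have hi' : i ≤ k := by
      have := Finset.mem_range.1 hi
      omega
    have h2 := (h.pow i).mul (h'.pow (k + 1 - 1 - i))
    rw [one_pow, one_pow, one_mul] at h2
    have e : (i : ℤ) * (-b) + ((k + 1 - 1 - i : ℕ) : ℤ) * (-b) = k * (-b) := by
      rw [show k + 1 - 1 - i = k - i by omega, Nat.cast_sub hi']
      ring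
    rwa [e] at h2
  rw [Finset.sum_const, Finset.card_range, nsmul_eq_mul, mul_one] at h1
  exact h1

/-- cancellation of a monic polynomial -/
theorem cancel [CharZero K] {β β' : LaurentSeries K} {b : ℤ} (hb : 0 < b) (h : HO β (-b) 1)
    (h' : HO β' (-b) 1) {A : K[X]} (hA : 0 < A.natDegree)
    (he : aeval β A = aeval β' A) : β = β' := by
  obtain ⟨a, ha⟩ : ∃ a, A.natDegree = a + 1 := ⟨A.natDegree - 1, by omega⟩
  have hA0 : A.leadingCoeff ≠ 0 := by
    rw [Ne, leadingCoeff_eq_zero]
    rintro rfl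
    simp at hA
  let T : ℕ → LaurentSeries K := fun k => ∑ i ∈ Finset.range k, β ^ i * β' ^ (k - 1 - i)
  have hT : ∀ k, T k * (β - β') = β ^ k - β' ^ k := fun k =>
    (Commute.all β β').geom_sum₂_mul k
  have hS : HO (∑ k ∈ Finset.range (a + 1 + 1), algebraMap K (LaurentSeries K) (A.coeff k) * T k) (a * (-b))
      (A.leadingCoeff * ((a + 1 : ℕ) : K)) := by
    rw [Finset.sum_range_succ]
    have h1 : HO (∑ k ∈ Finset.range (a + 1), algebraMap K (LaurentSeries K) (A.coeff k) * T k) (a * (-b))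
        (∑ _k ∈ Finset.range (a + 1), (0 : K)) := by
      refine HO.sum _ _ _ _ fun k hk => ?_
      rcases k with _ | k
      · have : T 0 = 0 := Finset.sum_range_zero _
        rw [this, mul_zero]
        exact HO.zero _
      · have hk' := Finset.mem_range.1 hk
        refine ((HO_geom h h' k).smul (A.coeff (k + 1))).lt ?_
        have : (k : ℤ) < a := by exact_mod_cast (by omega : k < a)
        nlinarith
    rw [Finset.sum_const_zero] at h1
    have h2 := h1.add ((HO_geom h h' a).smul (A.coeff (a + 1)))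
    rw [zero_add] at h2
    have e : A.leadingCoeff = A.coeff (a + 1) := by rw [leadingCoeff, ha]
    rw [e]
    exact h2
  have hS0 : (∑ k ∈ Finset.range (a + 1 + 1), algebraMap K (LaurentSeries K) (A.coeff k) * T k) ≠ 0 := by
    intro h0
    rw [h0] at hS
    have h1 := hS.unique (HO.zero _)
    have h2 : ((a + 1 : ℕ) : K) ≠ 0 := Nat.cast_ne_zero.2 (Nat.succ_ne_zero a)
    exact (mul_ne_zero hA0 h2) h1
  have hprod : (∑ k ∈ Finset.range (a + 1 + 1), algebraMap K (LaurentSeries K) (A.coeff k) * T k) * (β - β') = 0 := by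
    rw [Finset.sum_mul]
    have e1 : ∑ k ∈ Finset.range (a + 1 + 1),
          algebraMap K (LaurentSeries K) (A.coeff k) * T k * (β - β') =
        ∑ k ∈ Finset.range (a + 1 + 1), (algebraMap K (LaurentSeries K) (A.coeff k) * β ^ k -
          algebraMap K (LaurentSeries K) (A.coeff k) * β' ^ k) := by
      refine Finset.sum_congr rfl fun k _ => ?_
      rw [mul_assoc, hT, mul_sub]
    rw [e1, Finset.sum_sub_distrib]
    rw [aeval_eq_sum_range, aeval_eq_sum_range, ha] at he
    simp only [Algebra.smul_def] at he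
    rw [he, sub_self]
  rcases mul_eq_zero.1 hprod with h1 | h1
  · exact absurd h1 hS0
  · exact sub_eq_zero.1 h1

theorem t_ROOTS {K : Type u} [Field K] [IsAlgClosed K] [CharZero K] : S_ROOTS K := by
  intro f th r hP hf
  have hth : HO th (-1) 1 := ⟨hP.low, hP.one⟩
  refine ⟨fun p _ => HO_aeval hth p, ?_⟩
  intro A B hB hb hA hAB
  set b := B.natDegree with hbdef
  have hn : f.natDegree = A.natDegree * b := by rw [← hAB, natDegree_comp]
  have hmem : ∀ ω : K, ω ∈ nthRootsFinset b (1 : K) ↔ ω ^ b = 1 := fun ω =>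
    mem_nthRootsFinset hb 1
  have hω0 : ∀ ω : K, ω ^ b = 1 → ω ≠ 0 := by
    intro ω hω h0
    rw [h0, zero_pow hb.ne'] at hω
    exact zero_ne_one hω
  have hinvb : ∀ ω : K, ω ^ b = 1 → ∀ j : ℕ, ω ^ (-((j * b : ℕ) : ℤ)) = 1 := by
    intro ω hω j
    rw [zpow_neg, zpow_natCast, mul_comm, pow_mul, hω, one_pow, inv_one]
  -- the rotated series takes the same value
  have hval : ∀ ω : K, ω ^ b = 1 → aeval (r ω th) f = aeval th f := by
    intro ω hω
    rw [aeval_algHom_apply, hP.val]
    ext k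
    rw [hP.rot ω (hω0 ω hω)]
    by_cases hk : k = -(f.natDegree : ℤ)
    · rw [hk, hn, hinvb ω hω, one_mul]
    · rw [HahnSeries.coeff_single_of_ne hk, mul_zero]
  have hβ : HO (aeval th B) (-(b : ℤ)) 1 := by
    have h1 := HO_aeval hth B
    rwa [hB.leadingCoeff] at h1
  have hroot : ∀ ω : K, ω ^ b = 1 → aeval (r ω th) B = aeval th B := by
    intro ω hω
    have h1 : HO (aeval (r ω th) B) (-(b : ℤ)) 1 := by
      rw [aeval_algHom_apply]
      refine ⟨fun k hk => ?_, ?_⟩
      · rw [hP.rot ω (hω0 ω hω), hβ.1 k hk, mul_zero]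
      · rw [hP.rot ω (hω0 ω hω), hβ.2, mul_one]
        have h2 := hinvb ω hω 1
        rwa [one_mul] at h2
    refine cancel (by exact_mod_cast hb) h1 hβ hA ?_
    rw [← aeval_comp, ← aeval_comp, hAB]
    exact hval ω hω
  -- the product
  obtain ⟨ζ, hζ⟩ : ∃ ζ : K, IsPrimitiveRoot ζ b := by
    have : NeZero (b : K) := ⟨Nat.cast_ne_zero.2 hb.ne'⟩
    exact HasEnoughRootsOfUnity.exists_primitiveRoot K b
  have hcard : (nthRootsFinset b (1 : K)).card = b := hζ.card_nthRootsFinset
  have hinj : ∀ ω ∈ nthRootsFinset b (1 : K), ∀ ω' ∈ nthRootsFinset b (1 : K),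
      r ω th = r ω' th → ω = ω' := by
    intro ω hω ω' hω' he
    have h1 : (r ω th).coeff (-1) = (r ω' th).coeff (-1) := by rw [he]
    rw [hP.rot ω (hω0 ω ((hmem ω).1 hω)), hP.rot ω' (hω0 ω' ((hmem ω').1 hω')), hP.one, mul_one,
      mul_one, zpow_neg_one, zpow_neg_one] at h1
    exact inv_injective h1
  have hmonic : (B.map (algebraMap K (LaurentSeries K)) - C (aeval th B)).Monic := by
    refine (hB.map _).sub_of_left ?_
    refine lt_of_le_of_lt degree_C_le ?_
    rw [degree_map]
    exact natDegree_pos_iff_degree_pos.1 hb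
  have hdeg : (B.map (algebraMap K (LaurentSeries K)) - C (aeval th B)).natDegree = b := by
    rw [natDegree_sub_C, natDegree_map]
  have hPmonic : (∏ ω ∈ nthRootsFinset b (1 : K), (X - C (r ω th))).Monic :=
    monic_prod_of_monic _ _ fun ω _ => monic_X_sub_C _
  have hPdeg : (∏ ω ∈ nthRootsFinset b (1 : K), (X - C (r ω th))).natDegree = b := by
    rw [natDegree_prod_of_monic _ _ fun ω _ => monic_X_sub_C _]
    simp only [natDegree_X_sub_C, Finset.sum_const, hcard, smul_eq_mul, mul_one]
  refine eq_of_monic_of_dvd_of_natDegree_le hPmonic hmonic ?_ (by rw [hdeg, hPdeg])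
  refine Finset.prod_dvd_of_coprime ?_ ?_
  · intro ω hω ω' hω' hne
    exact isCoprime_X_sub_C_of_isUnit_sub (IsUnit.mk0 _ (sub_ne_zero.2 fun h =>
      hne (hinj ω hω ω' hω' h)))
  · intro ω hω
    rw [dvd_iff_isRoot, IsRoot.def, eval_sub, eval_C, eval_map_algebraMap,
      hroot ω ((hmem ω).1 hω), sub_self]

end Pool.Agent.H249.CH211
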